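import Pool.Agent.Lib.MP_2b4858_co.Final

set_option autoImplicit false

namespace Pool.Agent.Results.MP_2b4858_co.AtMostTwelve

open Pool.Agent.Lib.MP_2b4858_co

/-- Negated form of Q1: every polygon that can be domed has at most twelve vertices
(extreme points). -/
theorem result : ∀ P : Set E3, CanBeDomed P → (P.extremePoints ℝ).encard ≤ 12 :=
  main

end Pool.Agent.Results.MP_2b4858_co.AtMostTwelve
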